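import Pool.Agent.Helper824_pc.Asm

/-!
Positive classification of `C_p(K)` and `C(K)` for countable compact spaces.
-/

namespace Pool.Agent.Results.MP_fa8dfe_an.PosClass

open Topology

universe u

/-- the topology of pointwise convergence on `C(K, ℝ)` -/
@[instance_reducible]
def pw (K : Type u) [TopologicalSpace K] : TopologicalSpace C(K, ℝ) :=
  TopologicalSpace.induced (fun (f : C(K, ℝ)) (x : K) => f x) Pi.topologicalSpace

/-- there is a positive linear homeomorphism of `C_p(K)` onto `C_p(L)` -/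
def PosPHomeo (K L : Type u) [TopologicalSpace K] [TopologicalSpace L] : Prop :=
  ∃ T : C(K, ℝ) ≃ₗ[ℝ] C(L, ℝ), (∀ f : C(K, ℝ), (∀ x, 0 ≤ f x) → ∀ y, 0 ≤ T f y) ∧
    Continuous[pw K, pw L] T ∧ Continuous[pw L, pw K] T.symm

/-- there is a positive isomorphism of the Banach space `C(K)` onto the Banach space `C(L)` -/
def PosIso (K L : Type u) [TopologicalSpace K] [TopologicalSpace L] [CompactSpace K]
    [CompactSpace L] : Prop :=
  ∃ T : C(K, ℝ) ≃ₗ[ℝ] C(L, ℝ), (∀ f : C(K, ℝ), (∀ x, 0 ≤ f x) → ∀ y, 0 ≤ T f y) ∧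
    (∃ M : ℝ, ∀ f, ‖T f‖ ≤ M * ‖f‖) ∧ (∃ M : ℝ, ∀ g, ‖T.symm g‖ ≤ M * ‖g‖)

open Pool.Agent.H824PC in
lemma cont_of_Lc {K L : Type u} [TopologicalSpace K] [TopologicalSpace L]
    (T : C(K, ℝ) →ₗ[ℝ] C(L, ℝ)) (h : ∀ y, (ev L y).comp T ∈ Lc K) :
    Continuous[pw K, pw L] T := by
  let _ := pw K
  have key : ∀ φ ∈ Lc K, Continuous[pw K, _] (fun f : C(K, ℝ) => φ f) := by
    intro φ hφ
    induction hφ using Submodule.span_induction with
    | mem x hx =>
      obtain ⟨y, rfl⟩ := hx
      show Continuous[pw K, _] (fun f : C(K, ℝ) => f y)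
      exact (continuous_apply y).comp continuous_induced_dom
    | zero => exact continuous_const
    | add x y _ _ hx hy => exact hx.add hy
    | smul c x _ hx => exact hx.const_smul c
  exact continuous_induced_rng.2 (continuous_pi fun y => key _ (h y))

theorem result (K L : Type u) [TopologicalSpace K] [CompactSpace K] [T2Space K] [Countable K]
    [TopologicalSpace L] [CompactSpace L] [T2Space L] [Countable L] :
    PosPHomeo K L ↔ PosIso K L := by
  constructor
  · rintro ⟨T, hT, -, -⟩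
    have hb : ∀ f, ‖T.toLinearMap f‖ ≤ ‖T 1‖ * ‖f‖ := by
      intro f
      rw [ContinuousMap.norm_le _ (by positivity)]
      intro y
      have h1 : 0 ≤ T (‖f‖ • (1 : C(K, ℝ)) - f) y := hT _ (fun x => by
        have := f.norm_coe_le_norm x
        rw [Real.norm_eq_abs] at this
        have h2 := le_abs_self (f x)
        show (0 : ℝ) ≤ ‖f‖ * 1 - f x
        linarith) y
      have h2 : 0 ≤ T (‖f‖ • (1 : C(K, ℝ)) + f) y := hT _ (fun x => by
        have := f.norm_coe_le_norm x
        rw [Real.norm_eq_abs] at this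
        have h2 := neg_abs_le (f x)
        show (0 : ℝ) ≤ ‖f‖ * 1 + f x
        linarith) y
      rw [map_sub, map_smul] at h1
      rw [map_add, map_smul] at h2
      have h1' : 0 ≤ ‖f‖ * T 1 y - T f y := h1
      have h2' : 0 ≤ ‖f‖ * T 1 y + T f y := h2
      have h3 : T 1 y ≤ ‖T 1‖ := (le_abs_self _).trans ((T 1).norm_coe_le_norm y)
      have h4 : ‖f‖ * T 1 y ≤ ‖T 1‖ * ‖f‖ := by
        rw [mul_comm]
        exact mul_le_mul_of_nonneg_right h3 (norm_nonneg f)
      show |T f y| ≤ _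
      rw [abs_le]
      constructor <;> linarith
    have hc : Continuous T := (LinearMap.mkContinuous T.toLinearMap _ hb).continuous
    let e := T.toContinuousLinearEquivOfContinuous hc
    refine ⟨T, hT, ⟨_, hb⟩, ‖(e.symm : C(L, ℝ) →L[ℝ] C(K, ℝ))‖, fun g => ?_⟩
    exact (e.symm : C(L, ℝ) →L[ℝ] C(K, ℝ)).le_opNorm g
  · rintro ⟨T, hT, ⟨M, hM⟩, ⟨M', hM'⟩⟩
    have hc : Continuous T := (LinearMap.mkContinuous T.toLinearMap M hM).continuous
    have hc' : Continuous T.symm := (LinearMap.mkContinuous T.symm.toLinearMap M' hM').continuous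
    obtain ⟨S, hS1, hS2, hS3⟩ := Pool.Agent.H824PC.main_dir T (fun f hf y => hT f hf y) hc hc'
    exact ⟨S, fun f hf y => hS1 f hf y, cont_of_Lc S.toLinearMap hS2,
      cont_of_Lc S.symm.toLinearMap hS3⟩

end Pool.Agent.Results.MP_fa8dfe_an.PosClass
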